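import Pool.Agent.R646.P.Final

/-!
# A torsion-free finitely presented group with the power alternative but not uniformly
-/

set_option autoImplicit false

namespace Pool.Agent.Results.MP_0fca91_al.PowerAlternative

/-- The subgroup generated by `g` and `h` is a free group of rank two. -/
def FreeRankTwo {G : Type*} [Group G] (g h : G) : Prop :=
  Nonempty (Subgroup.closure {g, h} ≃* FreeGroup (Fin 2))

/-- The power alternative. -/
def PowerAlt (G : Type*) [Group G] : Prop :=
  ∀ g h : G, ∃ n : ℕ, 1 ≤ n ∧ (Commute (g ^ n) (h ^ n) ∨ FreeRankTwo (g ^ n) (h ^ n))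

/-- The uniform power alternative. -/
def UniformPowerAlt (G : Type*) [Group G] : Prop :=
  ∃ N : ℕ, 1 ≤ N ∧ ∀ g h : G, Commute (g ^ N) (h ^ N) ∨ FreeRankTwo (g ^ N) (h ^ N)

/-- There is a torsion-free finitely presented group which has the power alternative but fails the
uniform power alternative. -/
theorem result :
    ∃ (G : Type) (_ : Group G), Group.IsFinitelyPresented G ∧
      (∀ g : G, ∀ n : ℕ, 1 ≤ n → g ^ n = 1 → g = 1) ∧ PowerAlt G ∧ ¬ UniformPowerAlt G := by
  refine ⟨Pool.Agent.R646.P.GG, inferInstance, ?_, ?_, ?_, ?_⟩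
  · exact Pool.Agent.R646.P.fp _ (Pool.Agent.R646.P.relSet_finite _ _ _ _ _)
  · exact fun g n hn h => Pool.Agent.R646.P.Gr_torsion_free g n hn h
  · exact fun g h => (Pool.Agent.R646.P.GG_alt g h).alt
  · rintro ⟨N, hN, hU⟩
    obtain ⟨g, h, h1, h2⟩ := Pool.Agent.R646.P.GG_not_uniform N hN
    rcases hU g h with h3 | h3
    · exact h1 h3
    · exact h2 h3

end Pool.Agent.Results.MP_0fca91_al.PowerAlternative
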